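import Mathlib

set_option autoImplicit false

namespace Pool.Agent.H804Z.Feyn

open Finset

def rl : ℕ → ℤ → ℤ × ℤ
  | 0 => fun y => (if y = 1 then 1 else 0, 0)
  | n + 1 => fun y => ((rl n (y - 1)).1 - (rl n (y - 1)).2, (rl n (y + 1)).2 + (rl n (y + 1)).1)

def r (n : ℕ) (y : ℤ) : ℤ := (rl n y).1
def l (n : ℕ) (y : ℤ) : ℤ := (rl n y).2

lemma r_zero (y : ℤ) : r 0 y = if y = 1 then 1 else 0 := rfl
lemma l_zero (y : ℤ) : l 0 y = 0 := rfl
lemma r_succ (n : ℕ) (y : ℤ) : r (n + 1) y = r n (y - 1) - l n (y - 1) := rfl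
lemma l_succ (n : ℕ) (y : ℤ) : l (n + 1) y = l n (y + 1) + r n (y + 1) := rfl

noncomputable def F (n : ℕ) (y : ℤ) (b : Bool) : ℂ :=
  ∑ s : Fin (n + 1) → Bool,
    if (s 0 = true ∧ ∑ i, (if s i then (1 : ℤ) else -1) = y) ∧ s (Fin.last n) = b then
      (-Complex.I) ^ ((Finset.univ.filter (fun i : Fin n => s i.castSucc ≠ s i.succ)).card) else 0

lemma turns_snoc (n : ℕ) (s : Fin (n + 1) → Bool) (c : Bool) :
    (Finset.univ.filter (fun i : Fin (n + 1) =>
      (Fin.snoc s c : Fin (n + 2) → Bool) i.castSucc ≠ (Fin.snoc s c : Fin (n + 2) → Bool) i.succ)).card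
      = (Finset.univ.filter (fun i : Fin n => s i.castSucc ≠ s i.succ)).card
        + if s (Fin.last n) = c then 0 else 1 := by
  rw [Finset.card_filter, Finset.card_filter, Fin.sum_univ_castSucc]
  congr 1
  · refine Finset.sum_congr rfl fun i _ => ?_
    rw [Fin.succ_castSucc]
    simp only [Fin.snoc_castSucc]
  · simp only [Fin.snoc_castSucc, Fin.succ_last, Fin.snoc_last]
    by_cases h : s (Fin.last n) = c <;> simp [h]

lemma F_succ (n : ℕ) (y : ℤ) (b : Bool) :
    F (n + 1) y b = F n (y - (if b then 1 else -1)) b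
      + (-Complex.I) * F n (y - (if b then 1 else -1)) (!b) := by
  unfold F
  rw [← (Fin.snocEquiv (fun _ : Fin (n + 2) => Bool)).sum_comp, Fintype.sum_prod_type,
    Finset.sum_comm, Finset.mul_sum, ← Finset.sum_add_distrib]
  refine Finset.sum_congr rfl fun s _ => ?_
  have e : ∀ c : Bool, (Fin.snocEquiv (fun _ : Fin (n + 2) => Bool)) (c, s)
      = (Fin.snoc s c : Fin (n + 2) → Bool) := fun c => rfl
  have h0 : ∀ c : Bool, (Fin.snoc s c : Fin (n + 2) → Bool) 0 = s 0 := fun c => by
    have : (0 : Fin (n + 2)) = Fin.castSucc (0 : Fin (n + 1)) := rfl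
    rw [this, Fin.snoc_castSucc]
  have hs : ∀ c : Bool, ∑ i, (if (Fin.snoc s c : Fin (n + 2) → Bool) i then (1 : ℤ) else -1)
      = ∑ i, (if s i then (1 : ℤ) else -1) + (if c then 1 else -1) := fun c => by
    rw [Fin.sum_univ_castSucc]
    simp only [Fin.snoc_castSucc, Fin.snoc_last]
  simp only [e, h0, hs, turns_snoc, Fin.snoc_last]
  rw [Finset.sum_eq_single b]
  · have hh : (∑ i, (if s i then (1 : ℤ) else -1) + (if b then 1 else -1) = y) ↔
        (∑ i, (if s i then (1 : ℤ) else -1) = y - (if b then 1 else -1)) := by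
      constructor <;> intro h <;> linarith
    simp only [hh]
    by_cases h1 : s 0 = true ∧ ∑ i, (if s i then (1 : ℤ) else -1) = y - (if b then 1 else -1)
    · by_cases h2 : s (Fin.last n) = b
      · have h3 : ¬ s (Fin.last n) = !b := by rw [h2]; cases b <;> simp
        simp only [h1, h2, and_self, if_true, add_zero]
        simp
      · have h3 : s (Fin.last n) = !b := by
          cases b <;> cases hh : s (Fin.last n) <;> simp_all
        simp only [h1, h2, and_self, if_true, if_false, and_false, zero_add, pow_succ]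
        rw [if_pos ⟨trivial, h3⟩]
        ring
    · simp only [h1, false_and, if_false, mul_zero, add_zero]
  · intro c _ hc
    simp [hc]
  · simp

lemma F_eq (n : ℕ) : ∀ y : ℤ, F n y true = (r n y : ℂ) ∧ F n y false = -Complex.I * (l n y : ℂ) := by
  induction n with
  | zero =>
    intro y
    unfold F
    rw [← (Equiv.funUnique (Fin 1) Bool).symm.sum_comp,
      ← (Equiv.funUnique (Fin 1) Bool).symm.sum_comp]
    simp only [Fintype.sum_bool]
    simp [r_zero, l_zero, eq_comm]
  | succ n ih =>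
    intro y
    rw [F_succ, F_succ, r_succ, l_succ]
    simp only [if_true, Bool.not_true, Bool.not_false, Bool.false_eq_true, if_false,
      sub_neg_eq_add, (ih _).1, (ih _).2]
    push_cast
    constructor
    · linear_combination (l n (y - 1) : ℂ) * Complex.I_mul_I
    · ring

lemma amp_eq (n : ℕ) (y : ℤ) :
    ‖∑ s ∈ Finset.univ.filter
        (fun s : Fin (n+1) → Bool =>
          s 0 = true ∧ ∑ i, (if s i then (1:ℤ) else -1) = y),
      (-Complex.I) ^ ((Finset.univ.filter
        (fun i : Fin n => s i.castSucc ≠ s i.succ)).card)‖ ^ 2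
      = (r n y : ℝ) ^ 2 + (l n y : ℝ) ^ 2 := by
  have : ∑ s ∈ Finset.univ.filter
        (fun s : Fin (n+1) → Bool =>
          s 0 = true ∧ ∑ i, (if s i then (1:ℤ) else -1) = y),
      (-Complex.I) ^ ((Finset.univ.filter
        (fun i : Fin n => s i.castSucc ≠ s i.succ)).card) = F n y true + F n y false := by
    unfold F
    rw [Finset.sum_filter, ← Finset.sum_add_distrib]
    refine Finset.sum_congr rfl fun s _ => ?_
    by_cases h1 : s 0 = true ∧ ∑ i, (if s i then (1 : ℤ) else -1) = y
    · cases h : s (Fin.last n) <;> simp [h1]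
    · simp only [h1, false_and, if_false, add_zero]
  rw [this, (F_eq n y).1, (F_eq n y).2, Complex.sq_norm, Complex.normSq_apply]
  simp
  ring

lemma eqtime (n : ℕ) : ∀ y : ℤ,
    ((n : ℤ) - y) * r n (y + 1) = ((n : ℤ) - y + 2) * r n (y - 1) + 2 * (y - 1) * l n (y - 1) ∧
    ((n : ℤ) + y) * l n (y - 1) = ((n : ℤ) + y) * l n (y + 1) + 2 * y * r n (y + 1) := by
  induction n with
  | zero =>
    intro y
    simp only [r_zero, l_zero]
    constructor
    · split_ifs with h1 h2 h2 <;> omega
    · split_ifs with h1 <;> omega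
  | succ n ih =>
    intro y
    have a1 := (ih (y - 1)).1
    have a2 := (ih (y - 1)).2
    have b1 := (ih (y + 1)).1
    have b2 := (ih (y + 1)).2
    simp only [r_succ, l_succ, add_sub_cancel_right, sub_add_cancel] at *
    push_cast
    constructor
    · linear_combination a1 + a2
    · linear_combination (-1) * b1 + b2

lemma vanish (n : ℕ) : ∀ y : ℤ, ((n : ℤ) + 1 < y ∨ y < -(n : ℤ) - 1 ∨ ¬ (2 ∣ (n : ℤ) + 1 - y)) →
    r n y = 0 ∧ l n y = 0 := by
  induction n with
  | zero =>
    intro y hy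
    refine ⟨?_, rfl⟩
    rw [r_zero, if_neg]
    omega
  | succ n ih =>
    intro y hy
    push_cast at hy
    have a := ih (y - 1) (by omega)
    have b := ih (y + 1) (by omega)
    rw [r_succ, l_succ, a.1, a.2, b.1, b.2]
    simp

lemma top (n : ℕ) : r n ((n : ℤ) + 1) = 1 ∧ l n ((n : ℤ) + 1) = 0 := by
  induction n with
  | zero => simp [r_zero, l_zero]
  | succ n ih =>
    have b := vanish n ((n : ℤ) + 1 + 1 + 1) (by omega)
    rw [r_succ, l_succ]
    push_cast
    rw [add_sub_cancel_right, ih.1, ih.2, b.1, b.2]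
    simp

end Pool.Agent.H804Z.Feyn
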