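import Pool.Agent.H804Z.FeynA

set_option autoImplicit false

namespace Pool.Agent.H804Z.Feyn

noncomputable def lam (n k : ℕ) : ℝ := (-1) ^ (k + 1) * (l n ((n : ℤ) + 1 - 2 * k) : ℝ)
noncomputable def rho (n k : ℕ) : ℝ := (-1) ^ k * (r n ((n : ℤ) + 1 - 2 * k) : ℝ)
noncomputable def cc (n k : ℕ) : ℝ := (k : ℝ) * ((n : ℝ) - k) / ((n : ℝ) - 2 * k)

lemma rel2 (n k : ℕ) : ((n : ℝ) - k) * (lam n (k + 1) + lam n k) = ((n : ℝ) - 2 * k) * rho n k := by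
  have h := (eqtime n ((n : ℤ) - 2 * k)).2
  have e1 : (n : ℤ) - 2 * k - 1 = (n : ℤ) + 1 - 2 * ((k + 1 : ℕ) : ℤ) := by push_cast; ring
  have e2 : (n : ℤ) - 2 * k + 1 = (n : ℤ) + 1 - 2 * (k : ℤ) := by ring
  rw [e1, e2] at h
  have h' := congrArg (fun z : ℤ => (z : ℝ)) h
  simp only [Int.cast_mul, Int.cast_add, Int.cast_sub, Int.cast_natCast, Int.cast_ofNat] at h'
  unfold lam rho
  linear_combination ((-1 : ℝ) ^ k / 2) * h'

lemma rel1 (n k : ℕ) : (k : ℝ) * rho n k + ((k : ℝ) + 1) * rho n (k + 1)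
    = ((n : ℝ) - 2 * k - 1) * lam n (k + 1) := by
  have h := (eqtime n ((n : ℤ) - 2 * k)).1
  have e2 : (n : ℤ) - 2 * k + 1 = (n : ℤ) + 1 - 2 * (k : ℤ) := by ring
  have h' := congrArg (fun z : ℤ => (z : ℝ)) h
  have e1 : (n : ℤ) - 2 * k - 1 = (n : ℤ) + 1 - 2 * ((k + 1 : ℕ) : ℤ) := by push_cast; ring
  simp only [Int.cast_mul, Int.cast_add, Int.cast_sub, Int.cast_natCast, Int.cast_ofNat,
    Int.cast_one] at h'
  rw [e1, e2] at h'
  unfold lam rho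
  linear_combination ((-1 : ℝ) ^ k / 2) * h'

lemma krho (n k : ℕ) (h : 0 < (n : ℝ) - 2 * k) :
    (k : ℝ) * rho n k = cc n k * (lam n (k + 1) + lam n k) := by
  unfold cc
  have := rel2 n k
  rw [div_mul_eq_mul_div, eq_div_iff h.ne']
  linear_combination (-(k : ℝ)) * this

def Inv (n k : ℕ) (b : ℝ) : Prop :=
  0 ≤ lam n k ∧ lam n k < lam n (k + 1) ∧ b * lam n (k + 1) ≤ cc n k * (lam n (k + 1) - lam n k)

lemma cc_ge (n k : ℕ) (h : 0 < (n : ℝ) - 2 * k) : (k : ℝ) ≤ cc n k := by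
  unfold cc
  rw [le_div_iff₀ h]
  have : (0 : ℝ) ≤ k := Nat.cast_nonneg k
  nlinarith

lemma cc_mono (n k : ℕ) (h : 0 < (n : ℝ) - 2 * ((k + 1 : ℕ) : ℝ)) : cc n k ≤ cc n (k + 1) := by
  unfold cc
  push_cast at h ⊢
  have hk : (0 : ℝ) ≤ k := Nat.cast_nonneg k
  have h2 : 0 < (n : ℝ) - 2 * k := by linarith
  rw [div_le_div_iff₀ h2 h]
  have : (k : ℝ) * (n - k) ≤ (k + 1) * (n - (k + 1)) := by nlinarith
  have h3 : 0 ≤ (k : ℝ) * (n - k) := mul_nonneg hk (by linarith)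
  nlinarith

lemma step (n k : ℕ) (b w b' : ℝ) (h : 0 < (n : ℝ) - 2 * ((k + 1 : ℕ) : ℝ)) (hI : Inv n k b)
    (hw : w ≤ (n : ℝ) - 2 * k - 1 - 4 * cc n (k + 1)) (hs : 0 < b + w) (hb : b' ≤ cc n (k + 1))
    (hc : (b + w) * b' ≤ cc n (k + 1) * (b + w - b')) : Inv n (k + 1) b' := by
  obtain ⟨h0, h1, h2⟩ := hI
  have h' : 0 < (n : ℝ) - 2 * k := by push_cast at h; linarith
  have e1 := krho n k h'
  have e2 := krho n (k + 1) h
  have e3 := rel1 n k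
  have hm := cc_mono n k h
  have hcp : 0 < cc n (k + 1) := lt_of_lt_of_le (by positivity) (cc_ge n (k + 1) h)
  push_cast at e2
  set c := cc n (k + 1)
  set a := lam n (k + 1)
  set a2 := lam n (k + 1 + 1)
  have ha : 0 < a := by linarith
  have hD : (b + w) * a ≤ c * (a2 - a) := by
    have : c * (a2 - a) = cc n k * (a - lam n k) + ((n : ℝ) - 2 * k - 1 - 2 * c - 2 * cc n k) * a := by
      linear_combination e3 - e1 - e2
    rw [this]
    have : w * a ≤ ((n : ℝ) - 2 * k - 1 - 2 * c - 2 * cc n k) * a :=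
      mul_le_mul_of_nonneg_right (by linarith) ha.le
    linarith
  have hpos : 0 < c * (a2 - a) := lt_of_lt_of_le (mul_pos hs ha) hD
  have hlt : a < a2 := by
    have := pos_of_mul_pos_of_pos_left' hpos hcp
    linarith
  refine ⟨ha.le, hlt, ?_⟩
  have k1 : (b + w) * a * (c - b') ≤ c * (a2 - a) * (c - b') :=
    mul_le_mul_of_nonneg_right hD (by linarith)
  have k2 : b' * c * a ≤ (b + w) * (c - b') * a :=
    mul_le_mul_of_nonneg_right (by linarith) ha.le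
  have : c * (b' * a2) ≤ c * (c * (a2 - a)) := by nlinarith
  exact le_of_mul_le_mul_left this hcp
where pos_of_mul_pos_of_pos_left' {x y : ℝ} (h : 0 < x * y) (hx : 0 < x) : 0 < y :=
  (pos_iff_pos_of_mul_pos h).mp hx

lemma W_eq (n k : ℕ) (h : 0 < (n : ℝ) - 2 * ((k + 1 : ℕ) : ℝ)) :
    (n : ℝ) - 2 * k - 1 - 4 * cc n (k + 1)
      = 1 + (2 * ((n : ℝ) - 2 * ((k + 1 : ℕ) : ℝ)) ^ 2 - (n : ℝ) ^ 2) / ((n : ℝ) - 2 * ((k + 1 : ℕ) : ℝ)) := by
  unfold cc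
  field_simp
  push_cast
  ring

lemma W_pos (n k : ℕ) (s : ℝ) (hs : 0 ≤ s) (hn : (n : ℝ) ^ 2 = 2 * s ^ 2)
    (h : s + 1 ≤ (n : ℝ) - 2 * ((k + 1 : ℕ) : ℝ)) : 2 ≤ (n : ℝ) - 2 * k - 1 - 4 * cc n (k + 1) := by
  have hz : 0 < (n : ℝ) - 2 * ((k + 1 : ℕ) : ℝ) := by linarith
  rw [W_eq n k hz, hn]
  set z := (n : ℝ) - 2 * ((k + 1 : ℕ) : ℝ)
  have : 1 ≤ (2 * z ^ 2 - 2 * s ^ 2) / z := by
    rw [le_div_iff₀ hz]; nlinarith
  linarith

lemma W_neg (n k : ℕ) (s A : ℝ) (hs : 0 ≤ s) (hA : 0 < A) (hn : (n : ℝ) ^ 2 = 2 * s ^ 2)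
    (h : s - A ≤ (n : ℝ) - 2 * ((k + 1 : ℕ) : ℝ)) (h2 : A ≤ (n : ℝ) - 2 * ((k + 1 : ℕ) : ℝ)) :
    -(6 * A) ≤ (n : ℝ) - 2 * k - 1 - 4 * cc n (k + 1) := by
  have hz : 0 < (n : ℝ) - 2 * ((k + 1 : ℕ) : ℝ) := by linarith
  rw [W_eq n k hz, hn]
  set z := (n : ℝ) - 2 * ((k + 1 : ℕ) : ℝ)
  have : -(6 * A) ≤ (2 * z ^ 2 - 2 * s ^ 2) / z := by
    rw [le_div_iff₀ hz]
    have : s ^ 2 ≤ (z + A) ^ 2 := pow_le_pow_left₀ hs (by linarith) 2
    nlinarith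
  linarith

lemma inv_zero (n : ℕ) (hn : 0 < n) : Inv n 0 0 := by
  have h0 : lam n 0 = 0 := by simp [lam, (top n).2]
  have h1 : rho n 0 = 1 := by simp [rho, (top n).1]
  have h := rel2 n 0
  rw [h0, h1] at h
  have hn' : (0 : ℝ) < n := by exact_mod_cast hn
  have h2 : lam n (0 + 1) = 1 := by
    have : (n : ℝ) * lam n (0 + 1) = n * 1 := by push_cast at h; linarith
    exact mul_left_cancel₀ hn'.ne' this
  refine ⟨h0.ge, by rw [h0, h2]; norm_num, ?_⟩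
  simp [cc]

lemma P_lt (n k : ℕ) (b b' : ℝ) (h : 0 < (n : ℝ) - 2 * ((k + 1 : ℕ) : ℝ)) (h1 : Inv n k b)
    (h2 : Inv n (k + 1) b') : rho n k ^ 2 + lam n k ^ 2 < rho n (k + 1) ^ 2 + lam n (k + 1) ^ 2 := by
  obtain ⟨a0, a1, -⟩ := h1
  obtain ⟨-, a2, -⟩ := h2
  have e1 := rel2 n k
  have e2 := rel2 n (k + 1)
  have hk : (0 : ℝ) ≤ k := Nat.cast_nonneg k
  push_cast at h e2
  have h' : 0 < (n : ℝ) - 2 * k := by linarith
  have r0 : 0 ≤ rho n k := by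
    have : 0 ≤ ((n : ℝ) - 2 * k) * rho n k := by
      rw [← e1]; exact mul_nonneg (by linarith) (by linarith)
    exact nonneg_of_mul_nonneg_right' this h'
  have r1 : rho n k ≤ rho n (k + 1) := by
    have k1 : ((n : ℝ) - (k + 1)) * (lam n (k + 1) + lam n k)
        ≤ ((n : ℝ) - (k + 1)) * (lam n (k + 1 + 1) + lam n (k + 1)) :=
      mul_le_mul_of_nonneg_left (by linarith) (by linarith)
    have k2 : ((n : ℝ) - k) * ((n : ℝ) - 2 * (k + 1)) * (lam n (k + 1) + lam n k)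
        ≤ ((n : ℝ) - (k + 1)) * ((n : ℝ) - 2 * k) * (lam n (k + 1) + lam n k) :=
      mul_le_mul_of_nonneg_right (by nlinarith) (by linarith)
    have k3 : ((n : ℝ) - 2 * k) * ((n : ℝ) - 2 * (k + 1)) * rho n k
        ≤ ((n : ℝ) - 2 * k) * ((n : ℝ) - 2 * (k + 1)) * rho n (k + 1) := by
      have k4 := mul_le_mul_of_nonneg_left k1 h'.le
      nlinarith
    exact le_of_mul_le_mul_left k3 (mul_pos h' h)
  nlinarith
where nonneg_of_mul_nonneg_right' {x y : ℝ} (h : 0 ≤ x * y) (hx : 0 < x) : 0 ≤ y :=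
  le_of_mul_le_mul_left (by simpa using h) hx

theorem incr (J : ℕ) (hJ : 0 < J) : ∃ n m : ℕ, (n : ℝ) - n / Real.sqrt 2 - 3 < 2 * m ∧
    ∀ k : ℕ, k < m + J → rho n k ^ 2 + lam n k ^ 2 < rho n (k + 1) ^ 2 + lam n (k + 1) ^ 2 := by
  obtain ⟨K, hK⟩ : ∃ K : ℕ, K = J * (12 * J + 1) := ⟨_, rfl⟩
  obtain ⟨n, hn⟩ : ∃ n : ℕ, n = 8 * (K + (K + 1) ^ 2 + J + 1) := ⟨_, rfl⟩
  have hnR : (n : ℝ) = 8 * (K + (K + 1) ^ 2 + J + 1) := by rw [hn]; push_cast; ring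
  have hKR : (K : ℝ) = J * (12 * J + 1) := by rw [hK]; push_cast; ring
  have hJR : (1 : ℝ) ≤ J := by exact_mod_cast hJ
  have hK0 : (0 : ℝ) ≤ K := Nat.cast_nonneg K
  have hn0 : (0 : ℝ) ≤ n := Nat.cast_nonneg n
  have hq : Real.sqrt 2 ^ 2 = 2 := Real.sq_sqrt (by norm_num)
  have hq0 : 0 < Real.sqrt 2 := Real.sqrt_pos.mpr (by norm_num)
  have hq1 : 4 / 3 ≤ Real.sqrt 2 := by
    rw [Real.le_sqrt (by norm_num) (by norm_num)]; norm_num
  have hq2 : Real.sqrt 2 ≤ 2 := by nlinarith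
  set s : ℝ := n / Real.sqrt 2 with hs
  have hs1 : s * Real.sqrt 2 = n := by rw [hs]; field_simp
  have hs0 : 0 ≤ s := by positivity
  have hs2 : (n : ℝ) ^ 2 = 2 * s ^ 2 := by rw [← hs1, mul_pow, hq]; ring
  have hs3 : s ≤ 3 / 4 * n := by nlinarith
  have hs4 : (n : ℝ) / 2 ≤ s := by nlinarith
  have hsq : (0 : ℝ) ≤ ((K : ℝ) + 1) ^ 2 := by positivity
  have hpos : 0 ≤ ((n : ℝ) - s - 1) / 2 := by linarith
  obtain ⟨m, hm⟩ : ∃ m : ℕ, m = ⌊((n : ℝ) - s - 1) / 2⌋₊ := ⟨_, rfl⟩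
  have hm1 : (m : ℝ) ≤ ((n : ℝ) - s - 1) / 2 := hm ▸ Nat.floor_le hpos
  have hm2 : ((n : ℝ) - s - 1) / 2 < m + 1 := hm ▸ Nat.lt_floor_add_one _
  have hm3 : K + (K + 1) ^ 2 ≤ m := by
    rw [hm]; apply Nat.le_floor; push_cast; linarith
  obtain ⟨p, hp⟩ : ∃ p : ℕ, m = p + K := ⟨m - K, by omega⟩
  have hp1 : ((K : ℝ) + 1) ^ 2 ≤ p := by
    have : (K + 1) ^ 2 ≤ p := by omega
    exact_mod_cast this
  have hpR : (m : ℝ) = p + K := by rw [hp]; push_cast; ring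
  have ph0 : ∀ k : ℕ, k ≤ m → Inv n k 0 := by
    intro k
    induction k with
    | zero => intro _; exact inv_zero n (by omega)
    | succ k ih =>
      intro hk
      have hkR : ((k + 1 : ℕ) : ℝ) ≤ m := by exact_mod_cast hk
      have hz : s + 1 ≤ (n : ℝ) - 2 * ((k + 1 : ℕ) : ℝ) := by linarith
      have hc := cc_ge n (k + 1) (by linarith)
      have hc0 : (0 : ℝ) ≤ ((k + 1 : ℕ) : ℝ) := Nat.cast_nonneg _
      exact step n k 0 2 0 (by linarith) (ih (by omega)) (W_pos n k s hs0 hs2 hz) (by norm_num)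
        (by linarith) (by linarith)
  have ph1 : ∀ i : ℕ, i ≤ K → Inv n (p + i) i := by
    intro i
    induction i with
    | zero => intro _; simpa using ph0 p (by omega)
    | succ i ih =>
      intro hi
      have hiR : (i : ℝ) + 1 ≤ K := by exact_mod_cast hi
      have hi0 : (0 : ℝ) ≤ i := Nat.cast_nonneg _
      have hz : s + 1 ≤ (n : ℝ) - 2 * ((p + i + 1 : ℕ) : ℝ) := by push_cast; linarith
      have hc := cc_ge n (p + i + 1) (by linarith)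
      push_cast at hc
      have := step n (p + i) i 2 (i + 1) (by linarith) (ih (by omega)) (W_pos n (p + i) s hs0 hs2 hz)
        (by linarith) (by nlinarith) (by nlinarith)
      simpa [add_assoc] using this
  have ph2 : ∀ j : ℕ, j ≤ J → Inv n (m + j) (K - j * (12 * J + 1)) := by
    intro j
    induction j with
    | zero => intro _; simpa [hp] using ph1 K le_rfl
    | succ j ih =>
      intro hj
      have hjR : (j : ℝ) + 1 ≤ J := by exact_mod_cast hj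
      have hj0 : (0 : ℝ) ≤ j := Nat.cast_nonneg _
      have hz : s + 1 - 2 * J ≤ (n : ℝ) - 2 * ((m + j + 1 : ℕ) : ℝ) := by push_cast; linarith
      have hc := cc_ge n (m + j + 1) (by linarith)
      push_cast at hc
      have hb : 12 * (J : ℝ) + 1 ≤ K - j * (12 * J + 1) := by rw [hKR]; nlinarith
      have hb2 : (K : ℝ) - j * (12 * J + 1) ≤ K := by nlinarith
      have := step n (m + j) (K - j * (12 * J + 1)) (-(6 * (2 * J))) (K - (j + 1) * (12 * J + 1))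
        (by linarith) (ih (by omega))
        (W_neg n (m + j) s (2 * J) hs0 (by linarith) hs2 (by linarith) (by linarith))
        (by linarith) (by nlinarith) (by
          set B : ℝ := K - j * (12 * J + 1) with hB
          have e : (K : ℝ) - (j + 1) * (12 * J + 1) = B - 12 * J - 1 := by rw [hB]; ring
          rw [e]
          have : (B + -(6 * (2 * J))) * (B - 12 * J - 1) ≤ (K + 1) * (K + 1) :=
            mul_le_mul (by linarith) (by linarith) (by linarith) (by linarith)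
          nlinarith)
      simpa [add_assoc] using this
  have all : ∀ k : ℕ, k ≤ m + J → ∃ b, Inv n k b := by
    intro k hk
    by_cases h : k ≤ m
    · exact ⟨0, ph0 k h⟩
    · obtain ⟨j, rfl⟩ : ∃ j, k = m + j := ⟨k - m, by omega⟩
      exact ⟨_, ph2 j (by omega)⟩
  refine ⟨n, m, by linarith, fun k hk => ?_⟩
  obtain ⟨b, hb⟩ := all k (by omega)
  obtain ⟨b', hb'⟩ := all (k + 1) (by omega)
  have hkR : ((k + 1 : ℕ) : ℝ) ≤ m + J := by exact_mod_cast hk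
  exact P_lt n k b b' (by linarith) hb hb'

theorem main (C : ℝ) : ∃ (n : ℕ) (x : ℤ),
    (∀ y : ℤ, (r n y : ℝ) ^ 2 + (l n y : ℝ) ^ 2 ≤ (r n x : ℝ) ^ 2 + (l n x : ℝ) ^ 2) ∧
    C < ((n : ℝ) + 1) / Real.sqrt 2 - x := by
  obtain ⟨J0, hJ0⟩ := exists_nat_ge C
  obtain ⟨n, m, hm, hk⟩ := incr (J0 + 2) (by omega)
  set P : ℤ → ℝ := fun y => (r n y : ℝ) ^ 2 + (l n y : ℝ) ^ 2 with hP
  obtain ⟨x, -, hx⟩ := Finset.exists_max_image (Finset.Icc (-(n : ℤ) - 1) (n + 1)) P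
    ⟨0, by simp; omega⟩
  have htop : P ((n : ℤ) + 1) = 1 := by simp [hP, (top n).1, (top n).2]
  have hx1 : 1 ≤ P x := htop ▸ hx _ (by simp; omega)
  have hmax : ∀ y, P y ≤ P x := by
    intro y
    by_cases hy : y ∈ Finset.Icc (-(n : ℤ) - 1) (n + 1)
    · exact hx y hy
    · have := vanish n y (by simp at hy; omega)
      have : P y = 0 := by simp [hP, this.1, this.2]
      linarith
  refine ⟨n, x, hmax, ?_⟩
  have hnv : ¬ ((n : ℤ) + 1 < x ∨ x < -(n : ℤ) - 1 ∨ ¬ (2 ∣ (n : ℤ) + 1 - x)) := by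
    intro h
    have := vanish n x h
    have : P x = 0 := by simp [hP, this.1, this.2]
    linarith
  obtain ⟨k, hk'⟩ : ∃ k : ℕ, x = (n : ℤ) + 1 - 2 * k := ⟨(((n : ℤ) + 1 - x) / 2).toNat, by omega⟩
  have hPk : ∀ j : ℕ, rho n j ^ 2 + lam n j ^ 2 = P ((n : ℤ) + 1 - 2 * j) := by
    intro j
    have e : ∀ i : ℕ, ((-1 : ℝ) ^ i) ^ 2 = 1 := fun i => by
      rw [← pow_mul, mul_comm, pow_mul]; norm_num
    simp only [hP, rho, lam, mul_pow, e, one_mul]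
  have hge : m + (J0 + 2) ≤ k := by
    by_contra hlt
    have h1 := hk k (by omega)
    rw [hPk, hPk, ← hk'] at h1
    exact absurd (hmax _) (not_le.mpr h1)
  have hgeR : (m : ℝ) + (J0 + 2) ≤ k := by exact_mod_cast hge
  have hxR : (x : ℝ) = n + 1 - 2 * k := by rw [hk']; push_cast; ring
  have hq0 : 0 < Real.sqrt 2 := Real.sqrt_pos.mpr (by norm_num)
  have : (n : ℝ) / Real.sqrt 2 ≤ ((n : ℝ) + 1) / Real.sqrt 2 := by gcongr; linarith
  have hJ : (0 : ℝ) ≤ J0 := Nat.cast_nonneg _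
  linarith

end Pool.Agent.H804Z.Feyn
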